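import Mathlib
import Pool.Agent.H95.LH.Riesz
import Pool.Agent.H95.LH.Upper

set_option autoImplicit false

open MeasureTheory
open scoped ENNReal NNReal

namespace Pool.Agent.Results.MP_03b314_an.LacunaryClassification

/-- An analytic distribution on the circle `ℝ/ℤ`, given by its Fourier coefficients: they vanish
for negative frequencies and grow at most polynomially. -/
def IsAnalyticDistribution (f : ℤ → ℂ) : Prop :=
  (∀ n : ℤ, n < 0 → f n = 0) ∧
    ∃ (C : ℝ) (k : ℕ), ∀ n : ℤ, ‖f n‖ ≤ C * (1 + |(n : ℝ)|) ^ k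

/-- The trigonometric polynomial with Fourier coefficients `u`. -/
noncomputable def trigPoly (u : ℤ →₀ ℂ) (x : UnitAddCircle) : ℂ :=
  u.sum fun k c => c * fourier k x

/-- The Fourier coefficients of `H_f g = (I - P_+)(conj f * g)`, for an analytic `f` and a
polynomial `g`, both given by their Fourier coefficients: the coefficient at `n < 0` is
`∑ k, conj (f (k - n)) * g k`. -/
noncomputable def hankel (f : ℤ → ℂ) (g : ℤ →₀ ℂ) (n : ℤ) : ℂ :=
  if n < 0 then g.sum fun k c => (starRingEnd ℂ) (f (k - n)) * c else 0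

/-- `H_f` acts from `ℓ^p A` to `ℓ^p`. -/
def HankelActs (p : ℝ≥0∞) (f : ℤ → ℂ) : Prop :=
  ∃ C : ℝ≥0, ∀ g : ℤ →₀ ℂ, (∀ n : ℤ, n < 0 → g n = 0) →
    eLpNorm (hankel f g) p Measure.count ≤ C * eLpNorm (fun n : ℤ => g n) p Measure.count

/-- `m` belongs to the multiplier algebra `M_p` of `ℓ^p`, with constant `C`. -/
def MultiplierBound (p : ℝ≥0∞) (m : UnitAddCircle → ℂ) (C : ℝ≥0) : Prop :=
  ∀ u : ℤ →₀ ℂ,
    eLpNorm (fun n : ℤ => fourierCoeff (fun x => m x * trigPoly u x) n) p Measure.count ≤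
      C * eLpNorm (fun n : ℤ => u n) p Measure.count

/-- `m` belongs to the multiplier algebra `M_p` of `ℓ^p`. -/
def IsMultiplier (p : ℝ≥0∞) (m : UnitAddCircle → ℂ) : Prop :=
  Integrable m AddCircle.haarAddCircle ∧
    ∃ C : ℝ≥0, ∀ u : ℤ →₀ ℂ,
      eLpNorm (fun n : ℤ => fourierCoeff (fun x => m x * trigPoly u x) n) p Measure.count ≤
        C * eLpNorm (fun n : ℤ => u n) p Measure.count

/-- `f` belongs to `P_+ (M_p)`. -/
def MemPplusM (p : ℝ≥0∞) (f : ℤ → ℂ) : Prop :=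
  ∃ m : UnitAddCircle → ℂ, IsMultiplier p m ∧
    ∀ n : ℤ, f n = if 0 ≤ n then fourierCoeff m n else 0

/-- Hadamard sequences of positive frequencies, with ratio `r`. -/
def Hadamard (r : ℝ) (n : ℕ → ℕ) : Prop := 1 < r ∧ 0 < n 0 ∧ ∀ k, r * n k ≤ n (k + 1)

open Classical in
/-- The lacunary series `∑ k, a k z ^ (n k)`, given by its Fourier coefficients. -/
noncomputable def lac (n : ℕ → ℕ) (a : ℕ → ℂ) (m : ℤ) : ℂ :=
  if h : ∃ k : ℕ, m = n k then a h.choose else 0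

/-! ### Hadamard sequences -/

theorem Hadamard.pos {r : ℝ} {n : ℕ → ℕ} (h : Hadamard r n) : ∀ k, 0 < n k := by
  obtain ⟨hr, h0, hn⟩ := h
  intro k
  induction k with
  | zero => exact h0
  | succ k ih =>
    have h1 := hn k
    have h2 : (0 : ℝ) < n k := by exact_mod_cast ih
    have h3 : (0 : ℝ) < n (k + 1) := by nlinarith
    exact_mod_cast h3

theorem Hadamard.strictMono {r : ℝ} {n : ℕ → ℕ} (h : Hadamard r n) : StrictMono n := by
  apply strictMono_nat_of_lt_succ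
  intro k
  have h0 := h.pos k
  obtain ⟨hr, _, hn⟩ := h
  have h1 := hn k
  have h2 : (0 : ℝ) < n k := by exact_mod_cast h0
  have h3 : (n k : ℝ) < n (k + 1) := by nlinarith
  exact_mod_cast h3

theorem Hadamard.pow {r : ℝ} {n : ℕ → ℕ} (h : Hadamard r n) :
    ∀ j k, r ^ j * n k ≤ n (k + j) := by
  intro j
  induction j with
  | zero => intro k; simp
  | succ j ih =>
    intro k
    have h1 := ih k
    have h2 := h.2.2 (k + j)
    have hr := h.1
    calc r ^ (j + 1) * n k = r * (r ^ j * n k) := by ring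
      _ ≤ r * n (k + j) := by gcongr
      _ ≤ _ := by rw [← add_assoc]; exact h2

theorem lac_apply {n : ℕ → ℕ} (hn : StrictMono n) (a : ℕ → ℂ) (k : ℕ) : lac n a (n k) = a k := by
  have h : ∃ i : ℕ, ((n k : ℕ) : ℤ) = n i := ⟨k, rfl⟩
  unfold lac
  rw [dif_pos h]
  have h1 : h.choose = k := by
    have h2 := h.choose_spec
    have h3 : n k = n h.choose := by exact_mod_cast h2
    exact (hn.injective h3).symm
  rw [h1]

theorem lac_zero {n : ℕ → ℕ} (a : ℕ → ℂ) {m : ℤ} (h : ∀ k : ℕ, m ≠ n k) : lac n a m = 0 := by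
  unfold lac
  rw [dif_neg]
  rintro ⟨j, hj⟩
  exact h j hj

theorem lac_enorm {n : ℕ → ℕ} (hn : StrictMono n) (a : ℕ → ℂ) (m : ℤ) : ‖lac n a m‖ₑ =
    ∑' k : ℕ, if m = n k then ‖a k‖ₑ else 0 := by
  by_cases h : ∃ k : ℕ, m = n k
  · obtain ⟨k, rfl⟩ := h
    rw [tsum_eq_single k]
    · rw [if_pos rfl, lac_apply hn]
    · intro i hi
      rw [if_neg]
      intro hij
      apply hi
      have : n k = n i := by exact_mod_cast hij
      exact (hn.injective this).symm
  · push Not at h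
    rw [lac_zero a h]
    symm
    rw [enorm_zero, ENNReal.tsum_eq_zero]
    intro j
    rw [if_neg (h j)]

theorem lac_tsum {n : ℕ → ℕ} (hn : StrictMono n) (a : ℕ → ℂ) {s : ℝ} (hs : 0 < s) :
    ∑' m : ℤ, ‖lac n a m‖ₑ ^ s = ∑' k : ℕ, ‖a k‖ₑ ^ s := by
  have h1 : ∀ m : ℤ, ‖lac n a m‖ₑ ^ s = ∑' k : ℕ, if m = n k then ‖a k‖ₑ ^ s else 0 := by
    intro m
    by_cases h : ∃ k : ℕ, m = n k
    · obtain ⟨k, rfl⟩ := h
      rw [lac_apply hn, tsum_eq_single k]
      · rw [if_pos rfl]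
      · intro i hi
        rw [if_neg]
        intro hij
        apply hi
        have : n k = n i := by exact_mod_cast hij
        exact (hn.injective this).symm
    · push Not at h
      rw [lac_zero a h, enorm_zero, ENNReal.zero_rpow_of_pos hs]
      symm
      rw [ENNReal.tsum_eq_zero]
      intro j
      rw [if_neg (h j)]
  simp_rw [h1]
  rw [ENNReal.tsum_comm]
  congr 1
  funext k
  rw [tsum_eq_single ((n k : ℕ) : ℤ)]
  · rw [if_pos rfl]
  · intro m hm
    rw [if_neg hm]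

/-! ### Norms -/

theorem eLpNorm_count {p : ℝ≥0∞} (hp0 : p ≠ 0) (hpt : p ≠ ⊤) (a : ℤ → ℂ) :
    eLpNorm a p Measure.count = (∑' n, ‖a n‖ₑ ^ p.toReal) ^ (1 / p.toReal) := by
  rw [eLpNorm_eq_lintegral_rpow_enorm_toReal hp0 hpt, lintegral_count]

/-- the finitely supported sequence on `[0, N)` given by `u` -/
noncomputable def vec (N : ℕ) (u : ℕ → ℂ) : ℤ →₀ ℂ :=
  ∑ k ∈ Finset.range N, Finsupp.single (k : ℤ) (u k)

theorem vec_sum (N : ℕ) (u : ℕ → ℂ) (F : ℤ → ℂ) :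
    ((vec N u).sum fun k c => F k * c) = ∑ k ∈ Finset.range N, F k * u k := by
  unfold vec
  rw [← Finsupp.sum_finsetSum_index]
  · apply Finset.sum_congr rfl
    intro k _
    rw [Finsupp.sum_single_index]
    ring
  · intro k; ring
  · intro k b c; ring

theorem vec_apply {N : ℕ} (u : ℕ → ℂ) {k : ℕ} (hk : k < N) : vec N u (k : ℤ) = u k := by
  unfold vec
  rw [Finsupp.finsetSum_apply, Finset.sum_eq_single k]
  · simp
  · intro j _ hj
    rw [Finsupp.single_apply, if_neg]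
    exact_mod_cast hj
  · intro h
    exact absurd (Finset.mem_range.mpr hk) h

theorem vec_zero {N : ℕ} (u : ℕ → ℂ) {n : ℤ} (h : ∀ k : ℕ, k < N → (k : ℤ) ≠ n) :
    vec N u n = 0 := by
  unfold vec
  rw [Finsupp.finsetSum_apply]
  apply Finset.sum_eq_zero
  intro j hj
  rw [Finsupp.single_apply, if_neg]
  exact h j (Finset.mem_range.mp hj)

theorem vec_neg {N : ℕ} (u : ℕ → ℂ) (n : ℤ) (hn : n < 0) : vec N u n = 0 :=
  vec_zero u (fun k _ => by omega)

theorem vec_norm {p : ℝ≥0∞} (hp0 : p ≠ 0) (hpt : p ≠ ⊤) (N : ℕ) (u : ℕ → ℂ) :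
    eLpNorm (fun n : ℤ => vec N u n) p Measure.count =
      ENNReal.ofReal ((∑ k ∈ Finset.range N, ‖u k‖ ^ p.toReal) ^ (1 / p.toReal)) := by
  have hr : 0 < p.toReal := ENNReal.toReal_pos hp0 hpt
  rw [eLpNorm_count hp0 hpt]
  have h1 : ∑' n : ℤ, ‖vec N u n‖ₑ ^ p.toReal =
      ENNReal.ofReal (∑ k ∈ Finset.range N, ‖u k‖ ^ p.toReal) := by
    rw [ENNReal.ofReal_sum_of_nonneg (fun i _ => Real.rpow_nonneg (norm_nonneg _) _)]
    have h2 : ∑' n : ℤ, ‖vec N u n‖ₑ ^ p.toReal =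
        ∑ n ∈ (Finset.range N).image (fun k : ℕ => (k : ℤ)), ‖vec N u n‖ₑ ^ p.toReal := by
      apply tsum_eq_sum
      intro n hn
      rw [vec_zero u]
      · simp [hr]
      · intro k hk hkn
        apply hn
        rw [Finset.mem_image]
        exact ⟨k, Finset.mem_range.mpr hk, hkn⟩
    rw [h2, Finset.sum_image]
    · apply Finset.sum_congr rfl
      intro k hk
      rw [vec_apply u (Finset.mem_range.mp hk)]
      rw [← ofReal_norm, ENNReal.ofReal_rpow_of_nonneg (norm_nonneg _) hr.le]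
    · intro x _ y _ hxy
      exact Nat.cast_injective hxy
  rw [h1, ENNReal.ofReal_rpow_of_nonneg _ (by positivity)]
  apply Finset.sum_nonneg
  intro i _
  exact Real.rpow_nonneg (norm_nonneg _) _

/-! ### Multipliers -/

/-- Fourier coefficients of the product with a trigonometric polynomial. -/
theorem fourierCoeff_mul_trigPoly (m : UnitAddCircle → ℂ)
    (hm : Integrable m AddCircle.haarAddCircle) (u : ℤ →₀ ℂ) (n : ℤ) :
    fourierCoeff (fun x => m x * trigPoly u x) n = u.sum fun k c => fourierCoeff m (n - k) * c := by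
  unfold fourierCoeff trigPoly Finsupp.sum
  have h1 : ∀ x : UnitAddCircle, fourier (-n) x • (m x * ∑ k ∈ u.support, u k * fourier k x) =
      ∑ k ∈ u.support, u k * (fourier (-(n - k)) x • m x) := by
    intro x
    rw [Finset.mul_sum, Finset.smul_sum]
    apply Finset.sum_congr rfl
    intro k _
    have : -(n - k) = -n + k := by ring
    rw [this, fourier_add]
    simp only [smul_eq_mul]
    ring
  simp_rw [h1]
  rw [integral_finsetSum]
  · apply Finset.sum_congr rfl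
    intro k _
    rw [integral_const_mul, mul_comm]
  · intro k _
    exact (hm.fourier_smul _).const_mul _

/-- A multiplier satisfies all window bounds. -/
theorem multiplier_bd {p : ℝ≥0∞} (hp : 1 < p) (hpt : p < ⊤) {q : ℝ}
    (hpq : p.toReal.HolderConjugate q) (m : UnitAddCircle → ℂ)
    (hm : Integrable m AddCircle.haarAddCircle) (C : ℝ≥0)
    (hC : ∀ u : ℤ →₀ ℂ,
      eLpNorm (fun n : ℤ => fourierCoeff (fun x => m x * trigPoly u x) n) p Measure.count ≤
        C * eLpNorm (fun n : ℤ => u n) p Measure.count) (N : ℕ) :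
    Pool.Agent.H95.LH.Bd p.toReal q N (fourierCoeff m) C := by
  classical
  have hp0 : p ≠ 0 := (lt_trans zero_lt_one hp).ne'
  have hpt' : p ≠ ⊤ := hpt.ne
  set r := p.toReal with hr
  have hrpos : 0 < r := hpq.pos
  intro u v
  set A : ℤ → ℂ := fun n => fourierCoeff (fun x => m x * trigPoly (vec N u) x) n with hA
  have hAval : ∀ n : ℤ, A n = ∑ k ∈ Finset.range N, fourierCoeff m (n - k) * u k := by
    intro n
    rw [hA]
    simp only
    rw [fourierCoeff_mul_trigPoly m hm, vec_sum N u (fun k => fourierCoeff m (n - k))]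
  have hAN : ENNReal.ofReal ((∑ l ∈ Finset.range N, ‖A l‖ ^ r) ^ (1 / r)) ≤
      eLpNorm A p Measure.count := by
    rw [eLpNorm_count hp0 hpt', ← hr, ← ENNReal.ofReal_rpow_of_nonneg
      (Finset.sum_nonneg fun i _ => Real.rpow_nonneg (norm_nonneg _) _) (by positivity)]
    apply ENNReal.rpow_le_rpow _ (by positivity)
    rw [ENNReal.ofReal_sum_of_nonneg (fun i _ => Real.rpow_nonneg (norm_nonneg _) _)]
    calc ∑ l ∈ Finset.range N, ENNReal.ofReal (‖A (l : ℤ)‖ ^ r)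
        = ∑ n ∈ (Finset.range N).image (fun k : ℕ => (k : ℤ)), ‖A n‖ₑ ^ r := by
          rw [Finset.sum_image]
          · apply Finset.sum_congr rfl
            intro l _
            rw [← ofReal_norm, ENNReal.ofReal_rpow_of_nonneg (norm_nonneg _) hrpos.le]
          · intro x _ y _ hxy
            exact Nat.cast_injective hxy
      _ ≤ _ := ENNReal.sum_le_tsum _
  have hreal : (∑ l ∈ Finset.range N, ‖A l‖ ^ r) ^ (1 / r) ≤
      (C : ℝ) * (∑ k ∈ Finset.range N, ‖u k‖ ^ r) ^ (1 / r) := by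
    have h1 := le_trans hAN (hC (vec N u))
    rw [vec_norm hp0 hpt', ← hr] at h1
    have h2 : (C : ℝ≥0∞) * ENNReal.ofReal ((∑ k ∈ Finset.range N, ‖u k‖ ^ r) ^ (1 / r)) =
        ENNReal.ofReal ((C : ℝ) * (∑ k ∈ Finset.range N, ‖u k‖ ^ r) ^ (1 / r)) := by
      rw [ENNReal.ofReal_mul (NNReal.coe_nonneg C), ENNReal.ofReal_coe_nnreal]
    rw [h2] at h1
    rw [ENNReal.ofReal_le_ofReal_iff] at h1
    · exact h1
    · apply mul_nonneg (NNReal.coe_nonneg C)
      apply Real.rpow_nonneg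
      exact Finset.sum_nonneg fun i _ => Real.rpow_nonneg (norm_nonneg _) _
  have hB : Pool.Agent.H95.LH.B N (fourierCoeff m) u v =
      ∑ l ∈ Finset.range N, A l * v l := by
    unfold Pool.Agent.H95.LH.B
    simp_rw [Finset.sum_mul]
    rw [Finset.sum_comm]
    apply Finset.sum_congr rfl
    intro l _
    rw [hAval, Finset.sum_mul]
    apply Finset.sum_congr rfl
    intro k _
    ring
  rw [hB]
  calc ‖∑ l ∈ Finset.range N, A l * v l‖ ≤ ∑ l ∈ Finset.range N, ‖A l‖ * ‖v l‖ := by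
        refine le_trans (norm_sum_le _ _) (le_of_eq ?_)
        apply Finset.sum_congr rfl
        intro l _
        rw [norm_mul]
    _ ≤ (∑ l ∈ Finset.range N, ‖A l‖ ^ r) ^ (1 / r)
          * (∑ l ∈ Finset.range N, ‖v l‖ ^ q) ^ (1 / q) := by
        exact Real.inner_le_Lp_mul_Lq_of_nonneg _ hpq (fun i _ => norm_nonneg _)
          (fun i _ => norm_nonneg _)
    _ ≤ (C : ℝ) * (∑ k ∈ Finset.range N, ‖u k‖ ^ r) ^ (1 / r)
          * (∑ l ∈ Finset.range N, ‖v l‖ ^ q) ^ (1 / q) := by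
        apply mul_le_mul_of_nonneg_right hreal
        apply Real.rpow_nonneg
        exact Finset.sum_nonneg fun i _ => Real.rpow_nonneg (norm_nonneg _) _

/-! ### Absolutely convergent series -/

/-- Young's inequality for sequences dominated by a convolution. -/
theorem conv_bound {p : ℝ≥0∞} (hp : 1 ≤ p) (H : ℤ → ℂ) (b : ℤ → ℝ≥0∞) (G : ℤ → ℂ)
    (h : ∀ n, ‖H n‖ₑ ≤ ∑' j : ℤ, b j * ‖G (j + n)‖ₑ) :
    eLpNorm H p Measure.count ≤ (∑' j, b j) * eLpNorm G p Measure.count := by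
  have hp0 : p ≠ 0 := (lt_of_lt_of_le zero_lt_one hp).ne'
  by_cases hpt : p = ⊤
  · subst hpt
    rw [eLpNorm_exponent_top, eLpNormEssSup_count]
    apply iSup_le
    intro n
    refine le_trans (h n) ?_
    rw [← ENNReal.tsum_mul_right]
    apply ENNReal.tsum_le_tsum
    intro j
    gcongr
    exact enorm_le_eLpNorm_count G (j + n) hp0
  · have hr1 : 1 ≤ p.toReal := by
      have := ENNReal.toReal_mono hpt hp
      simpa using this
    have hr0 : 0 < p.toReal := by linarith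
    rw [eLpNorm_count hp0 hpt, eLpNorm_count hp0 hpt]
    have h1 : ∑' n, ‖H n‖ₑ ^ p.toReal ≤ (∑' j, b j) ^ p.toReal * ∑' n, ‖G n‖ₑ ^ p.toReal := by
      refine le_trans (ENNReal.tsum_le_tsum fun n => ENNReal.rpow_le_rpow (h n) hr0.le) ?_
      exact Pool.Agent.H95.LH.young hr1 b (fun n => ‖G n‖ₑ)
    refine le_trans (ENNReal.rpow_le_rpow h1 (by positivity)) ?_
    rw [ENNReal.mul_rpow_of_nonneg _ _ (by positivity), ← ENNReal.rpow_mul,
      mul_one_div_cancel hr0.ne', ENNReal.rpow_one]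

theorem enorm_finsupp_sum_le (F : ℤ → ℂ) (g : ℤ →₀ ℂ) :
    ‖g.sum fun k c => F k * c‖ₑ ≤ ∑' k : ℤ, ‖F k‖ₑ * ‖g k‖ₑ := by
  unfold Finsupp.sum
  refine le_trans (enorm_sum_le _ _) ?_
  refine le_trans (le_of_eq ?_) (ENNReal.sum_le_tsum g.support)
  apply Finset.sum_congr rfl
  intro k _
  rw [enorm_mul]

theorem hankel_enorm_le (f : ℤ → ℂ) (g : ℤ →₀ ℂ) (n : ℤ) :
    ‖hankel f g n‖ₑ ≤ ∑' j : ℤ, ‖f j‖ₑ * ‖g (j + n)‖ₑ := by
  unfold hankel
  split_ifs with hn
  · refine le_trans (enorm_finsupp_sum_le (fun k => (starRingEnd ℂ) (f (k - n))) g) ?_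
    rw [← Pool.Agent.H95.LH.tsum_shift _ n]
    apply le_of_eq
    congr 1
    funext j
    have h1 : n + j - n = j := by ring
    rw [h1, RCLike.enorm_conj, add_comm n j]
  · rw [enorm_zero]
    exact zero_le

theorem hankelActs_of_summable {p : ℝ≥0∞} (hp : 1 ≤ p) (f : ℤ → ℂ)
    (hf : ∑' n, ‖f n‖ₑ ≠ ⊤) : HankelActs p f := by
  refine ⟨(∑' n, ‖f n‖ₑ).toNNReal, fun g _ => ?_⟩
  rw [ENNReal.coe_toNNReal hf]
  exact conv_bound hp _ _ _ (hankel_enorm_le f g)

theorem multiplier_of_summable {p : ℝ≥0∞} (hp : 1 ≤ p) (f : ℤ → ℂ)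
    (hf : ∑' n, ‖f n‖ₑ ≠ ⊤) : ∃ m : UnitAddCircle → ℂ, IsMultiplier p m ∧
      ∀ n : ℤ, fourierCoeff m n = f n := by
  have hs : Summable fun n => ‖f n‖ := by
    have h1 : Summable fun n => ‖f n‖₊ := ENNReal.tsum_coe_ne_top_iff_summable.mp hf
    exact NNReal.summable_coe.mpr h1
  set m : UnitAddCircle → ℂ := fun x => ∑' k : ℤ, f k * fourier k x with hm
  have hbd : ∀ (k : ℤ) (x : UnitAddCircle), ‖f k * fourier k x‖ ≤ ‖f k‖ := by
    intro k x
    rw [norm_mul]
    have : ‖(fourier k x : ℂ)‖ = 1 := by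
      rw [fourier_apply]
      exact Circle.norm_coe _
    rw [this, mul_one]
  have hcont : Continuous m := by
    rw [hm]
    refine continuous_tsum (fun k => ?_) hs hbd
    exact continuous_const.mul (ContinuousMap.continuous (fourier k))
  have hint : Integrable m AddCircle.haarAddCircle := by
    apply hcont.integrable_of_hasCompactSupport
    exact HasCompactSupport.of_compactSpace _
  have hfc : ∀ n : ℤ, fourierCoeff m n = f n := by
    intro n
    have h1 : ∀ k : ℤ, Integrable (fun x : UnitAddCircle => fourier (-n) x • (f k * fourier k x))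
        AddCircle.haarAddCircle := by
      intro k
      apply Continuous.integrable_of_hasCompactSupport
      · exact (ContinuousMap.continuous (fourier (-n))).smul
          (continuous_const.mul (ContinuousMap.continuous (fourier k)))
      · exact HasCompactSupport.of_compactSpace _
    have h2 : ∀ (k : ℤ) (x : UnitAddCircle), ‖fourier (-n) x • (f k * fourier k x)‖ = ‖f k‖ := by
      intro k x
      rw [norm_smul, norm_mul]
      have h3 : ∀ j : ℤ, ‖(fourier j x : ℂ)‖ = 1 := by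
        intro j
        rw [fourier_apply]
        exact Circle.norm_coe _
      rw [h3, h3, mul_one, one_mul]
    have h4 := hasSum_integral_of_summable_integral_norm h1 (by
      simp_rw [h2]
      simpa using hs)
    have h5 : ∀ x : UnitAddCircle, ∑' k : ℤ, fourier (-n) x • (f k * fourier k x) =
        fourier (-n) x • m x := by
      intro x
      rw [hm]
      simp only [smul_eq_mul]
      rw [tsum_mul_left]
    simp_rw [h5] at h4
    have h6 : ∀ k : ℤ, ∫ x : UnitAddCircle, fourier (-n) x • (f k * fourier k x)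
        ∂AddCircle.haarAddCircle = f k * (Pi.single (M := fun _ : ℤ => ℂ) k 1 n) := by
      intro k
      rw [← fourierCoeff_fourier (T := 1) k]
      unfold fourierCoeff
      rw [← integral_const_mul]
      congr 1
      funext x
      simp only [smul_eq_mul]
      ring
    simp_rw [h6] at h4
    have h7 : HasSum (fun k : ℤ => f k * (Pi.single (M := fun _ : ℤ => ℂ) k 1 n)) (f n) := by
      have h8 : HasSum (fun k : ℤ => f k * (Pi.single (M := fun _ : ℤ => ℂ) k 1 n))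
          (f n * (Pi.single (M := fun _ : ℤ => ℂ) n 1 n)) := by
        apply hasSum_single
        intro k hk
        rw [Pi.single_eq_of_ne hk.symm, mul_zero]
      rw [Pi.single_eq_same, mul_one] at h8
      exact h8
    exact h4.unique h7
  refine ⟨m, ⟨hint, (∑' n, ‖f n‖ₑ).toNNReal, fun u => ?_⟩, hfc⟩
  rw [ENNReal.coe_toNNReal hf]
  have h9 : ∑' n, ‖f n‖ₑ = ∑' n : ℤ, ‖f (-n)‖ₑ := ((Equiv.neg ℤ).tsum_eq (fun n => ‖f n‖ₑ)).symm
  rw [h9]
  apply conv_bound hp _ _ _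
  intro n
  rw [fourierCoeff_mul_trigPoly m hint]
  refine le_trans (enorm_finsupp_sum_le (fun k => fourierCoeff m (n - k)) u) ?_
  rw [← Pool.Agent.H95.LH.tsum_shift _ n]
  apply le_of_eq
  congr 1
  funext j
  have h1 : n - (n + j) = -j := by ring
  rw [h1, hfc, add_comm n j]

theorem memPplusM_of_summable {p : ℝ≥0∞} (hp : 1 ≤ p) (f : ℤ → ℂ) (hf0 : ∀ n < 0, f n = 0)
    (hf : ∑' n, ‖f n‖ₑ ≠ ⊤) : MemPplusM p f := by
  obtain ⟨m, hm, hfc⟩ := multiplier_of_summable hp f hf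
  refine ⟨m, hm, fun n => ?_⟩
  split_ifs with h
  · rw [hfc]
  · exact hf0 n (by omega)

/-! ### Necessary conditions -/

theorem hankel_vec (f : ℤ → ℂ) (N : ℕ) (u : ℕ → ℂ) {n : ℤ} (hn : n < 0) :
    hankel f (vec N u) n = ∑ k ∈ Finset.range N, (starRingEnd ℂ) (f (k - n)) * u k := by
  unfold hankel
  rw [if_pos hn, vec_sum N u (fun k => (starRingEnd ℂ) (f (k - n)))]

/-- the unimodular number conjugate to the argument of `z` -/
noncomputable def phase (z : ℂ) : ℂ := if z = 0 then 0 else (starRingEnd ℂ) z / ‖z‖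

theorem phase_norm (z : ℂ) : ‖phase z‖ ≤ 1 := by
  unfold phase
  split_ifs with h
  · simp
  · have : ‖z‖ ≠ 0 := norm_ne_zero_iff.mpr h
    rw [norm_div, RCLike.norm_conj, Complex.norm_real, norm_norm, div_self this]

theorem mul_phase (z : ℂ) : z * phase z = ‖z‖ := by
  unfold phase
  split_ifs with h
  · simp [h]
  · have : (‖z‖ : ℂ) ≠ 0 := by
      exact_mod_cast norm_ne_zero_iff.mpr h
    rw [mul_div_assoc', Complex.mul_conj, Complex.normSq_eq_norm_sq, div_eq_iff this]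
    push_cast
    ring

theorem vec_norm_top (N : ℕ) (u : ℕ → ℂ) (hu : ∀ k, ‖u k‖ ≤ 1) :
    eLpNorm (fun n : ℤ => vec N u n) ⊤ Measure.count ≤ 1 := by
  rw [eLpNorm_exponent_top, eLpNormEssSup_count]
  apply iSup_le
  intro n
  by_cases h : ∃ k : ℕ, k < N ∧ (k : ℤ) = n
  · obtain ⟨k, hk, rfl⟩ := h
    rw [vec_apply u hk]
    have h1 := hu k
    rw [← ofReal_norm]
    exact ENNReal.ofReal_le_one.mpr h1
  · push Not at h
    rw [vec_zero u h]
    simp

theorem nat_tsum_le (F : ℕ → ℝ≥0∞) (C : ℝ≥0∞) (h : ∀ K : ℕ, ∑ k ∈ Finset.range K, F k ≤ C) :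
    ∑' k, F k ≤ C := by
  rw [ENNReal.tsum_eq_iSup_nat]
  exact iSup_le h

/-- the output at `-1`, or test vector `1` -/
theorem hankel_first {p : ℝ≥0∞} (hp : 1 ≤ p) (hpt : p ≠ ⊤) (f : ℤ → ℂ) (hA : HankelActs p f) :
    ∑' k : ℕ, ‖f (k + 1)‖ₑ ^ p.toReal ≠ ⊤ := by
  have hp0 : p ≠ 0 := (lt_of_lt_of_le zero_lt_one hp).ne'
  have hr0 : 0 < p.toReal := ENNReal.toReal_pos hp0 hpt
  obtain ⟨C, hC⟩ := hA
  have h1 := hC (vec 1 fun _ => 1) (vec_neg _)
  rw [vec_norm hp0 hpt] at h1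
  simp only [Finset.range_one, norm_one, Real.one_rpow, Finset.sum_const, Finset.card_singleton,
    one_smul, ENNReal.ofReal_one, mul_one] at h1
  rw [eLpNorm_count hp0 hpt] at h1
  have h2 : (∑' n : ℤ, ‖hankel f (vec 1 fun _ => 1) n‖ₑ ^ p.toReal) ≠ ⊤ := by
    intro h
    rw [h, ENNReal.top_rpow_of_pos (by positivity)] at h1
    exact absurd h1 (by simp)
  refine ne_top_of_le_ne_top h2 ?_
  have h3 : ∀ k : ℕ, ‖f (k + 1)‖ₑ ^ p.toReal =
      ‖hankel f (vec 1 fun _ => 1) (-((k : ℤ) + 1))‖ₑ ^ p.toReal := by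
    intro k
    rw [hankel_vec f 1 _ (by omega)]
    simp only [Finset.range_one, Finset.sum_singleton, Nat.cast_zero, mul_one]
    rw [RCLike.enorm_conj]
    congr 3
    ring
  simp_rw [h3]
  have h4 : Function.Injective fun k : ℕ => -((k : ℤ) + 1) := by
    intro a b hab
    simp only at hab
    omega
  exact ENNReal.tsum_comp_le_tsum_of_injective h4
    (fun n : ℤ => ‖hankel f (vec 1 fun _ => 1) n‖ₑ ^ p.toReal)

theorem hankel_second {p : ℝ≥0∞} (hp : 1 ≤ p) (hpt : p ≠ ⊤) {q : ℝ}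
    (hpq : p.toReal.HolderConjugate q) (f : ℤ → ℂ) (hA : HankelActs p f) :
    ∑' k : ℕ, ‖f (k + 1)‖ₑ ^ q ≠ ⊤ := by
  have hp0 : p ≠ 0 := (lt_of_lt_of_le zero_lt_one hp).ne'
  set r := p.toReal with hr
  have hr0 : 0 < r := hpq.pos
  have hq0 : 0 < q := hpq.symm.pos
  have hq1 : 1 < q := hpq.symm.lt
  obtain ⟨C, hC⟩ := hA
  have key : ∀ K : ℕ, ∑ k ∈ Finset.range K, ‖f (k + 1)‖ₑ ^ q ≤ ENNReal.ofReal ((C : ℝ) ^ q) := by
    intro K
    set S : ℝ := ∑ k ∈ Finset.range K, ‖f (k + 1)‖ ^ q with hS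
    have hS0 : 0 ≤ S := Finset.sum_nonneg fun i _ => Real.rpow_nonneg (norm_nonneg _) _
    have hSE : ∑ k ∈ Finset.range K, ‖f (k + 1)‖ₑ ^ q = ENNReal.ofReal S := by
      rw [hS, ENNReal.ofReal_sum_of_nonneg (fun i _ => Real.rpow_nonneg (norm_nonneg _) _)]
      apply Finset.sum_congr rfl
      intro k _
      rw [← ofReal_norm, ENNReal.ofReal_rpow_of_nonneg (norm_nonneg _) hq0.le]
    rw [hSE]
    apply ENNReal.ofReal_le_ofReal
    set u : ℕ → ℂ := fun k => f (k + 1) * ((‖f (k + 1)‖ ^ (q - 2) : ℝ) : ℂ) with hu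
    have hun : ∀ k, ‖u k‖ = ‖f (k + 1)‖ ^ (q - 1) := by
      intro k
      rw [hu]
      simp only
      rw [norm_mul, Complex.norm_real, Real.norm_of_nonneg (Real.rpow_nonneg (norm_nonneg _) _)]
      by_cases h0 : ‖f (k + 1)‖ = 0
      · rw [h0, zero_mul, Real.zero_rpow (by linarith)]
      · have h1 : 0 < ‖f (k + 1)‖ := lt_of_le_of_ne (norm_nonneg _) (Ne.symm h0)
        nth_rewrite 1 [← Real.rpow_one ‖f (k + 1)‖]
        rw [← Real.rpow_add h1]
        congr 1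
        ring
    have hup : ∀ k, ‖u k‖ ^ r = ‖f (k + 1)‖ ^ q := by
      intro k
      rw [hun, ← Real.rpow_mul (norm_nonneg _)]
      congr 1
      have := hpq.symm.sub_one_mul_conj
      exact this
    have hprod : ∀ k : ℕ, (starRingEnd ℂ) (f (k + 1)) * u k = ((‖f (k + 1)‖ ^ q : ℝ) : ℂ) := by
      intro k
      rw [hu]
      simp only
      rw [← mul_assoc, mul_comm ((starRingEnd ℂ) (f (k + 1))), Complex.mul_conj,
        Complex.normSq_eq_norm_sq, ← Complex.ofReal_mul]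
      congr 1
      by_cases h0 : ‖f (k + 1)‖ = 0
      · rw [h0, Real.zero_rpow hq0.ne']
        simp
      · have h1 : 0 < ‖f (k + 1)‖ := lt_of_le_of_ne (norm_nonneg _) (Ne.symm h0)
        rw [← Real.rpow_natCast, ← Real.rpow_add h1]
        congr 1
        push_cast
        ring
    have h1 := hC (vec K u) (vec_neg _)
    rw [vec_norm hp0 hpt, ← hr] at h1
    have h2 : ‖hankel f (vec K u) (-1)‖ₑ = ENNReal.ofReal S := by
      rw [hankel_vec f K u (by norm_num)]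
      have h3 : ∀ k ∈ Finset.range K, (starRingEnd ℂ) (f ((k : ℤ) - -1)) * u k =
          ((‖f (k + 1)‖ ^ q : ℝ) : ℂ) := by
        intro k _
        rw [sub_neg_eq_add]
        exact hprod k
      rw [Finset.sum_congr rfl h3, ← Complex.ofReal_sum, ← ofReal_norm, Complex.norm_real,
        Real.norm_of_nonneg hS0]
    have h4 := le_trans (enorm_le_eLpNorm_count (hankel f (vec K u)) (-1) hp0) h1
    rw [h2] at h4
    have h5 : ∑ k ∈ Finset.range K, ‖u k‖ ^ r = S := by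
      rw [hS]
      apply Finset.sum_congr rfl
      intro k _
      exact hup k
    rw [h5, ← ENNReal.ofReal_coe_nnreal, ← ENNReal.ofReal_mul (NNReal.coe_nonneg C),
      ENNReal.ofReal_le_ofReal_iff (mul_nonneg (NNReal.coe_nonneg C)
        (Real.rpow_nonneg hS0 _))] at h4
    rcases hS0.eq_or_lt with h6 | h6
    · rw [← h6]
      positivity
    · have h7 : S ^ (1 / q) ≤ C := by
        have h8 : S = S ^ (1 / q) * S ^ (1 / r) := by
          rw [← Real.rpow_add h6]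
          have : 1 / q + 1 / r = 1 := by
            rw [one_div, one_div]
            exact hpq.symm.inv_add_inv_eq_one
          rw [this, Real.rpow_one]
        have h9 : S ^ (1 / q) * S ^ (1 / r) ≤ C * S ^ (1 / r) := by
          rw [← h8]
          exact h4
        exact le_of_mul_le_mul_right h9 (Real.rpow_pos_of_pos h6 _)
      calc S = (S ^ (1 / q)) ^ q := by
            rw [← Real.rpow_mul hS0, one_div_mul_cancel hq0.ne', Real.rpow_one]
        _ ≤ (C : ℝ) ^ q := Real.rpow_le_rpow (Real.rpow_nonneg hS0 _) h7 hq0.le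
  exact ne_top_of_le_ne_top ENNReal.ofReal_ne_top (nat_tsum_le _ _ key)

theorem hankel_second_top (f : ℤ → ℂ) (hA : HankelActs ⊤ f) :
    ∑' k : ℕ, ‖f (k + 1)‖ₑ ≠ ⊤ := by
  obtain ⟨C, hC⟩ := hA
  have key : ∀ K : ℕ, ∑ k ∈ Finset.range K, ‖f (k + 1)‖ₑ ≤ C := by
    intro K
    set u : ℕ → ℂ := fun k => phase ((starRingEnd ℂ) (f (k + 1))) with hu
    have h1 := hC (vec K u) (vec_neg _)
    have h2 : ‖hankel f (vec K u) (-1)‖ₑ = ∑ k ∈ Finset.range K, ‖f (k + 1)‖ₑ := by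
      rw [hankel_vec f K u (by norm_num)]
      have h3 : ∀ k ∈ Finset.range K, (starRingEnd ℂ) (f ((k : ℤ) - -1)) * u k =
          ((‖f (k + 1)‖ : ℝ) : ℂ) := by
        intro k _
        rw [sub_neg_eq_add, hu]
        simp only
        rw [mul_phase, RCLike.norm_conj]
      rw [Finset.sum_congr rfl h3, ← Complex.ofReal_sum, ← ofReal_norm, Complex.norm_real,
        Real.norm_of_nonneg (Finset.sum_nonneg fun i _ => norm_nonneg _),
        ENNReal.ofReal_sum_of_nonneg (fun i _ => norm_nonneg _)]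
      apply Finset.sum_congr rfl
      intro k _
      rw [ofReal_norm]
    rw [← h2]
    refine le_trans (enorm_le_eLpNorm_count (hankel f (vec K u)) (-1) ENNReal.top_ne_zero) ?_
    refine le_trans h1 ?_
    refine le_trans (mul_le_mul_right (vec_norm_top K u fun k => phase_norm _) _) ?_
    rw [mul_one]
  exact ne_top_of_le_ne_top ENNReal.coe_ne_top (nat_tsum_le _ _ key)

theorem multiplier_first (m : UnitAddCircle → ℂ) (hm : IsMultiplier 1 m) :
    ∑' n : ℤ, ‖fourierCoeff m n‖ₑ ≠ ⊤ := by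
  obtain ⟨hint, C, hC⟩ := hm
  have h1 := hC (vec 1 fun _ => 1)
  rw [vec_norm one_ne_zero ENNReal.one_ne_top, eLpNorm_count one_ne_zero ENNReal.one_ne_top] at h1
  simp only [Finset.range_one, norm_one, Real.one_rpow, Finset.sum_const, Finset.card_singleton,
    one_smul, ENNReal.ofReal_one, mul_one, ENNReal.toReal_one, ENNReal.rpow_one, div_one] at h1
  refine ne_top_of_le_ne_top ENNReal.coe_ne_top (le_trans (le_of_eq ?_) h1)
  congr 1
  funext n
  rw [fourierCoeff_mul_trigPoly m hint, vec_sum 1 _ (fun k => fourierCoeff m (n - k))]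
  simp

theorem multiplier_top (m : UnitAddCircle → ℂ) (hm : IsMultiplier ⊤ m) :
    ∑' k : ℕ, ‖fourierCoeff m k‖ₑ ≠ ⊤ := by
  obtain ⟨hint, C, hC⟩ := hm
  have key : ∀ K : ℕ, ∑ k ∈ Finset.range K, ‖fourierCoeff m k‖ₑ ≤ C := by
    intro K
    set u : ℕ → ℂ := fun k => phase (fourierCoeff m ((K : ℤ) - 1 - k)) with hu
    have h1 := hC (vec K u)
    have h2 : ‖fourierCoeff (fun x => m x * trigPoly (vec K u) x) ((K : ℤ) - 1)‖ₑ =
        ∑ k ∈ Finset.range K, ‖fourierCoeff m k‖ₑ := by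
      rw [fourierCoeff_mul_trigPoly m hint,
        vec_sum K u (fun k => fourierCoeff m ((K : ℤ) - 1 - k))]
      have h3 : ∀ k ∈ Finset.range K, fourierCoeff m ((K : ℤ) - 1 - k) * u k =
          ((‖fourierCoeff m ((K : ℤ) - 1 - k)‖ : ℝ) : ℂ) := by
        intro k _
        rw [hu]
        simp only
        rw [mul_phase]
      rw [Finset.sum_congr rfl h3, ← Complex.ofReal_sum, ← ofReal_norm, Complex.norm_real,
        Real.norm_of_nonneg (Finset.sum_nonneg fun i _ => norm_nonneg _),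
        ENNReal.ofReal_sum_of_nonneg (fun i _ => norm_nonneg _)]
      rw [← Finset.sum_range_reflect]
      apply Finset.sum_congr rfl
      intro k hk
      rw [ofReal_norm]
      have hk' := Finset.mem_range.mp hk
      congr 2
      omega
    rw [← h2]
    refine le_trans (enorm_le_eLpNorm_count
      (fun n : ℤ => fourierCoeff (fun x => m x * trigPoly (vec K u) x) n) ((K : ℤ) - 1)
      ENNReal.top_ne_zero) ?_
    refine le_trans h1 ?_
    refine le_trans (mul_le_mul_right (vec_norm_top K u fun k => phase_norm _) _) ?_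
    rw [mul_one]
  exact ne_top_of_le_ne_top ENNReal.coe_ne_top (nat_tsum_le _ _ key)

theorem int_tsum {f : ℤ → ℂ} (hf : ∀ n < 0, f n = 0) {s : ℝ} (hs : 0 < s) :
    ∑' n : ℤ, ‖f n‖ₑ ^ s = ∑' k : ℕ, ‖f k‖ₑ ^ s := by
  symm
  apply Function.Injective.tsum_eq (g := fun k : ℕ => (k : ℤ)) (f := fun n : ℤ => ‖f n‖ₑ ^ s)
    Nat.cast_injective
  intro n hn
  rw [Function.mem_support] at hn
  by_contra h
  apply hn
  have h1 : n < 0 := by
    by_contra h2
    apply h
    exact ⟨n.toNat, by simp; omega⟩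
  rw [hf n h1, enorm_zero, ENNReal.zero_rpow_of_pos hs]

theorem int_tsum_ne_top {f : ℤ → ℂ} (hf : ∀ n < 0, f n = 0) {s : ℝ} (hs : 0 < s)
    (h : ∑' k : ℕ, ‖f (k + 1)‖ₑ ^ s ≠ ⊤) : ∑' n : ℤ, ‖f n‖ₑ ^ s ≠ ⊤ := by
  rw [int_tsum hf hs, tsum_eq_zero_add' ENNReal.summable]
  rw [ENNReal.add_ne_top]
  constructor
  · exact ENNReal.rpow_ne_top_of_nonneg hs.le enorm_ne_top
  · push_cast
    exact h

/-- The case `p = 1` and `p = ∞`. -/
theorem hankel_endpoint (f : ℤ → ℂ) (hf : ∀ n < 0, f n = 0) {p : ℝ≥0∞} (hp : p = 1 ∨ p = ⊤) :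
    (HankelActs p f ↔ ∑' n : ℤ, ‖f n‖ₑ ≠ ⊤) ∧ (MemPplusM p f ↔ ∑' n : ℤ, ‖f n‖ₑ ≠ ⊤) := by
  have hp1 : 1 ≤ p := by
    rcases hp with h | h
    · rw [h]
    · rw [h]; exact le_top
  refine ⟨⟨fun h => ?_, hankelActs_of_summable hp1 f⟩,
    ⟨fun h => ?_, memPplusM_of_summable hp1 f hf⟩⟩
  · have h1 : ∑' n : ℤ, ‖f n‖ₑ ^ (1 : ℝ) ≠ ⊤ := by
      apply int_tsum_ne_top hf one_pos
      rcases hp with h2 | h2
      · subst h2
        have := hankel_first le_rfl ENNReal.one_ne_top f h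
        rwa [ENNReal.toReal_one] at this
      · subst h2
        simp only [ENNReal.rpow_one]
        exact hankel_second_top f h
    simpa using h1
  · obtain ⟨m, hm, hfm⟩ := h
    have h1 : ∑' n : ℤ, ‖f n‖ₑ ^ (1 : ℝ) ≠ ⊤ := by
      rw [int_tsum hf one_pos]
      have h3 : ∑' k : ℕ, ‖f k‖ₑ ^ (1 : ℝ) = ∑' k : ℕ, ‖fourierCoeff m k‖ₑ := by
        congr 1
        funext k
        rw [hfm, if_pos (by omega), ENNReal.rpow_one]
      rw [h3]
      rcases hp with h2 | h2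
      · subst h2
        refine ne_top_of_le_ne_top (multiplier_first m hm) ?_
        exact ENNReal.tsum_comp_le_tsum_of_injective (f := fun k : ℕ => (k : ℤ))
          Nat.cast_injective (fun n : ℤ => ‖fourierCoeff m n‖ₑ)
      · subst h2
        exact multiplier_top m hm
    simpa using h1

/-! ### Lacunary series -/

theorem lac_of_neg {n : ℕ → ℕ} (a : ℕ → ℂ) {m : ℤ} (hm : m < 0) : lac n a m = 0 :=
  lac_zero a (fun k => by omega)

theorem exists_two_le_pow {r : ℝ} (hr : 1 < r) : ∃ M : ℕ, M ≠ 0 ∧ 2 ≤ r ^ M := by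
  obtain ⟨M, hM⟩ := pow_unbounded_of_one_lt 2 hr
  refine ⟨M, ?_, hM.le⟩
  rintro rfl
  rw [pow_zero] at hM
  linarith

theorem lac_hankel_enorm {n : ℕ → ℕ} (hn : StrictMono n) (a : ℕ → ℂ) (g : ℤ →₀ ℂ) (m : ℤ) :
    ‖hankel (lac n a) g m‖ₑ ≤ if m < 0 then ∑' k : ℕ, ‖a k‖ₑ * ‖g (n k + m)‖ₑ else 0 := by
  split_ifs with hm
  · refine le_trans (hankel_enorm_le (lac n a) g m) (le_of_eq ?_)
    simp_rw [lac_enorm hn, ← ENNReal.tsum_mul_right]
    rw [ENNReal.tsum_comm]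
    congr 1
    funext k
    rw [tsum_eq_single ((n k : ℕ) : ℤ)]
    · rw [if_pos rfl]
    · intro j hj
      rw [if_neg hj, zero_mul]
  · unfold hankel
    rw [if_neg hm, enorm_zero]

theorem residues (M : ℕ) [NeZero M] (F : ℕ → ℝ≥0∞) :
    ∑' k, F k = ∑ ρ : Fin M, ∑' j : ℕ, F (j * M + ρ) := by
  rw [← (Nat.divModEquiv M).symm.tsum_eq F, ENNReal.tsum_prod', ENNReal.tsum_comm, tsum_fintype]
  rfl

/-- Upper bound for lacunary Hankel operators. -/
theorem lac_hankelActs {r : ℝ} {n : ℕ → ℕ} (hH : Hadamard r n) (a : ℕ → ℂ) {p : ℝ≥0∞}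
    (hp : 1 < p) (hpt : p ≠ ⊤) {q : ℝ} (hpq : p.toReal.HolderConjugate q)
    (hap : ∑' k, ‖a k‖ₑ ^ p.toReal ≠ ⊤) (haq : ∑' k, ‖a k‖ₑ ^ q ≠ ⊤) :
    HankelActs p (lac n a) := by
  have hp0 : p ≠ 0 := (lt_trans zero_lt_one hp).ne'
  obtain ⟨M, hM0, hM⟩ := exists_two_le_pow hH.1
  have : NeZero M := ⟨hM0⟩
  set s := p.toReal with hs
  have hs0 : 0 < s := hpq.pos
  have hs1 : 1 < s := hpq.lt
  set A : ℝ≥0∞ := ∑' k, ‖a k‖ₑ ^ s with hA
  set B : ℝ≥0∞ := ∑' k, ‖a k‖ₑ ^ q with hB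
  set D : ℝ≥0∞ := (M : ℝ≥0∞) ^ (s - 1) * (M * (2 ^ (s - 1) * (A + B ^ (s / q)))) with hD
  have hDt : D ≠ ⊤ := by
    rw [hD]
    apply ENNReal.mul_ne_top
    · exact ENNReal.rpow_ne_top_of_nonneg (by linarith) (ENNReal.natCast_ne_top M)
    · apply ENNReal.mul_ne_top (ENNReal.natCast_ne_top M)
      apply ENNReal.mul_ne_top
      · exact ENNReal.rpow_ne_top_of_nonneg (by linarith) (by simp)
      · rw [ENNReal.add_ne_top]
        exact ⟨hap, ENNReal.rpow_ne_top_of_nonneg (div_nonneg hs0.le hpq.symm.pos.le) haq⟩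
  have hDt' : D ^ (1 / s) ≠ ⊤ := ENNReal.rpow_ne_top_of_nonneg (by positivity) hDt
  refine ⟨(D ^ (1 / s)).toNNReal, fun g hg => ?_⟩
  rw [ENNReal.coe_toNNReal hDt', eLpNorm_count hp0 hpt, eLpNorm_count hp0 hpt,
    ← ENNReal.mul_rpow_of_nonneg _ _ (by positivity)]
  apply ENNReal.rpow_le_rpow _ (by positivity)
  set G : ℤ → ℝ≥0∞ := fun m => ‖g m‖ₑ with hG
  have hG0 : ∀ m < 0, G m = 0 := by
    intro m hm
    rw [hG]
    simp only
    rw [hg m hm, enorm_zero]
  have hclass : ∀ ρ : Fin M, ∑' m : ℤ, (if m < 0 then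
      (∑' j : ℕ, ‖a (j * M + ρ)‖ₑ * G (n (j * M + ρ) + m)) ^ s else 0) ≤
        (2 : ℝ≥0∞) ^ (s - 1) * (A + B ^ (s / q)) * ∑' m, G m ^ s := by
    intro ρ
    have h1 := Pool.Agent.H95.LH.hankel_sum (N := fun j : ℕ => ((n (j * M + ρ) : ℕ) : ℤ))
      (by exact_mod_cast hH.pos _) (fun j => by
        have h2 := hH.pow M (j * M + ρ)
        have h3 : (2 : ℝ) * n (j * M + ρ) ≤ n (j * M + ρ + M) := by
          refine le_trans ?_ h2
          gcongr
        have h4 : 2 * n (j * M + ρ) ≤ n (j * M + ρ + M) := by exact_mod_cast h3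
        have h5 : (j + 1) * M + ρ = j * M + ρ + M := by ring
        rw [h5]
        exact_mod_cast h4) hpq (fun j => ‖a (j * M + ρ)‖ₑ) G hG0
    refine le_trans h1 ?_
    have hinj : Function.Injective fun j : ℕ => j * M + (ρ : ℕ) := by
      intro i j hij
      simp only [add_left_inj] at hij
      exact Nat.eq_of_mul_eq_mul_right (Nat.pos_of_ne_zero hM0) hij
    have h6 : ∑' j : ℕ, ‖a (j * M + ρ)‖ₑ ^ s ≤ A :=
      ENNReal.tsum_comp_le_tsum_of_injective hinj (fun k => ‖a k‖ₑ ^ s)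
    have h7 : ∑' j : ℕ, ‖a (j * M + ρ)‖ₑ ^ q ≤ B :=
      ENNReal.tsum_comp_le_tsum_of_injective hinj (fun k => ‖a k‖ₑ ^ q)
    gcongr
    exact div_nonneg hs0.le hpq.symm.pos.le
  calc ∑' m : ℤ, ‖hankel (lac n a) g m‖ₑ ^ s
      ≤ ∑' m : ℤ, (M : ℝ≥0∞) ^ (s - 1) * ∑ ρ : Fin M, (if m < 0 then
          (∑' j : ℕ, ‖a (j * M + ρ)‖ₑ * G (n (j * M + ρ) + m)) ^ s else 0) := by
        apply ENNReal.tsum_le_tsum
        intro m
        refine le_trans (ENNReal.rpow_le_rpow (lac_hankel_enorm hH.strictMono a g m) hs0.le) ?_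
        split_ifs with hm
        · rw [residues M (fun k => ‖a k‖ₑ * ‖g (n k + m)‖ₑ)]
          refine le_trans (ENNReal.rpow_sum_le_const_mul_sum_rpow Finset.univ _ hs1.le) ?_
          rw [Finset.card_univ, Fintype.card_fin]
        · rw [ENNReal.zero_rpow_of_pos hs0]
          exact zero_le
    _ = (M : ℝ≥0∞) ^ (s - 1) * ∑ ρ : Fin M, ∑' m : ℤ, (if m < 0 then
          (∑' j : ℕ, ‖a (j * M + ρ)‖ₑ * G (n (j * M + ρ) + m)) ^ s else 0) := by
        rw [ENNReal.tsum_mul_left, Summable.tsum_finsetSum fun _ _ => ENNReal.summable]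
    _ ≤ (M : ℝ≥0∞) ^ (s - 1) * ∑ ρ : Fin M, (2 : ℝ≥0∞) ^ (s - 1) * (A + B ^ (s / q)) *
          ∑' m, G m ^ s := by
        gcongr with ρ
        exact hclass ρ
    _ = D * ∑' m, G m ^ s := by
        rw [Finset.sum_const, Finset.card_univ, Fintype.card_fin, nsmul_eq_mul, hD]
        ring

theorem summable_rpow_of_le {b : ℕ → ℝ} (hb : ∀ k, 0 ≤ b k) {s t : ℝ} (hs : 0 < s) (hst : s ≤ t)
    (h : Summable fun k => b k ^ s) : Summable fun k => b k ^ t := by
  have h1 := h.tendsto_atTop_zero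
  have h2 : ∀ᶠ k in Filter.atTop, b k ^ s < 1 := h1.eventually_lt_const one_pos
  refine Summable.of_norm_bounded_eventually_nat h ?_
  filter_upwards [h2] with k hk
  rw [Real.norm_of_nonneg (Real.rpow_nonneg (hb k) _)]
  have h3 : b k < 1 := by
    by_contra hcon
    push Not at hcon
    have := Real.one_le_rpow hcon hs.le
    linarith
  rcases (hb k).eq_or_lt with h4 | h4
  · rw [← h4, Real.zero_rpow hs.ne', Real.zero_rpow (by linarith)]
  · exact Real.rpow_le_rpow_of_exponent_ge h4 h3.le hst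

theorem tsum_ne_top_iff (a : ℕ → ℂ) {s : ℝ} (hs : 0 ≤ s) :
    ∑' k, ‖a k‖ₑ ^ s ≠ ⊤ ↔ Summable fun k => ‖a k‖ ^ s := by
  have h1 : ∀ k, ‖a k‖ₑ ^ s = ((‖a k‖₊ ^ s : ℝ≥0) : ℝ≥0∞) := by
    intro k
    rw [enorm_eq_nnnorm, ENNReal.coe_rpow_of_nonneg _ hs]
  simp_rw [h1]
  rw [ENNReal.tsum_coe_ne_top_iff_summable, ← NNReal.summable_coe]
  simp

/-- `H_f` for lacunary `f` acts exactly if the coefficients are in `ℓ^{min(p, p')}`. -/
theorem lac_hankelActs_iff {r : ℝ} {n : ℕ → ℕ} (hH : Hadamard r n) (a : ℕ → ℂ) {p : ℝ≥0∞}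
    (hp : 1 < p) (hpt : p ≠ ⊤) {q : ℝ} (hpq : p.toReal.HolderConjugate q) :
    HankelActs p (lac n a) ↔ Summable fun k => ‖a k‖ ^ min p.toReal q := by
  have hs0 : 0 < p.toReal := hpq.pos
  have hq0 : 0 < q := hpq.symm.pos
  have hm0 : 0 < min p.toReal q := lt_min hs0 hq0
  constructor
  · intro h
    have h1 : ∑' m : ℤ, ‖lac n a m‖ₑ ^ p.toReal ≠ ⊤ :=
      int_tsum_ne_top (fun m hm => lac_of_neg a hm) hs0 (hankel_first hp.le hpt _ h)
    have h2 : ∑' m : ℤ, ‖lac n a m‖ₑ ^ q ≠ ⊤ :=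
      int_tsum_ne_top (fun m hm => lac_of_neg a hm) hq0 (hankel_second hp.le hpt hpq _ h)
    rw [lac_tsum hH.strictMono a hs0, tsum_ne_top_iff a hs0.le] at h1
    rw [lac_tsum hH.strictMono a hq0, tsum_ne_top_iff a hq0.le] at h2
    rcases min_choice p.toReal q with h3 | h3
    · rw [h3]; exact h1
    · rw [h3]; exact h2
  · intro h
    apply lac_hankelActs hH a hp hpt hpq
    · rw [tsum_ne_top_iff a hs0.le]
      exact summable_rpow_of_le (fun k => norm_nonneg _) hm0 (min_le_left _ _) h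
    · rw [tsum_ne_top_iff a hq0.le]
      exact summable_rpow_of_le (fun k => norm_nonneg _) hm0 (min_le_right _ _) h

/-- The Paley-type inequality for `M_p`. -/
theorem paley {p : ℝ≥0∞} (hp : 1 < p) (hpt : p < ⊤) (hp2 : p ≠ 2) {r : ℝ} (hr : 1 < r) :
    ∃ K : ℝ≥0, ∀ n : ℕ → ℕ, Hadamard r n → ∀ (m : UnitAddCircle → ℂ) (C : ℝ≥0),
      Integrable m AddCircle.haarAddCircle → MultiplierBound p m C →
        ∑' k : ℕ, ‖fourierCoeff m (n k)‖ₑ ≤ K * C := by
  have hs1 : 1 < p.toReal := by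
    have := (ENNReal.toReal_lt_toReal ENNReal.one_ne_top hpt.ne).mpr hp
    simpa using this
  have hpq : p.toReal.HolderConjugate p.toReal.conjExponent := Real.HolderConjugate.conjExponent hs1
  have hs2 : p.toReal ≠ 2 := by
    intro h
    apply hp2
    rw [← ENNReal.ofReal_toReal hpt.ne, h]
    simp
  obtain ⟨K, hK, hbd⟩ := Pool.Agent.H95.LH.sum_le_of_ratio hpq hs2 hr
  refine ⟨K.toNNReal, fun n hH m C hint hC => ?_⟩
  have h1 := hbd (fourierCoeff m) C (fun N => multiplier_bd hp hpt hpq m hint C hC N) n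
    hH.2.1 hH.2.2
  refine le_trans (nat_tsum_le _ (K.toNNReal * C) fun d => ?_) (le_of_eq (by rfl))
  have h2 := h1 d
  have h3 : ∑ k ∈ Finset.range d, ‖fourierCoeff m (n k)‖ₑ =
      ENNReal.ofReal (∑ k ∈ Finset.range d, ‖fourierCoeff m (n k)‖) := by
    rw [ENNReal.ofReal_sum_of_nonneg (fun i _ => norm_nonneg _)]
    apply Finset.sum_congr rfl
    intro k _
    rw [ofReal_norm]
  rw [h3]
  refine le_trans (ENNReal.ofReal_le_ofReal h2) ?_
  rw [ENNReal.ofReal_mul hK.le, ENNReal.ofReal_coe_nnreal]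
  push_cast
  rfl

/-- Lacunary elements of `P_+ (M_p)`. -/
theorem lac_memPplusM_iff {r : ℝ} {n : ℕ → ℕ} (hH : Hadamard r n) (a : ℕ → ℂ) {p : ℝ≥0∞}
    (hp : 1 < p) (hpt : p < ⊤) (hp2 : p ≠ 2) :
    MemPplusM p (lac n a) ↔ Summable fun k => ‖a k‖ := by
  constructor
  · rintro ⟨m, ⟨hint, C, hC⟩, hfm⟩
    obtain ⟨K, hK⟩ := paley hp hpt hp2 hH.1
    have h1 := hK n hH m C hint hC
    have h2 : ∑' k : ℕ, ‖fourierCoeff m (n k)‖ₑ = ∑' k : ℕ, ‖a k‖ₑ ^ (1 : ℝ) := by
      congr 1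
      funext k
      have h3 := hfm (n k)
      rw [if_pos (by omega), lac_apply hH.strictMono] at h3
      rw [← h3, ENNReal.rpow_one]
    rw [h2] at h1
    have h4 : ∑' k : ℕ, ‖a k‖ₑ ^ (1 : ℝ) ≠ ⊤ :=
      ne_top_of_le_ne_top (ENNReal.mul_ne_top ENNReal.coe_ne_top ENNReal.coe_ne_top) h1
    rw [tsum_ne_top_iff a zero_le_one] at h4
    simpa using h4
  · intro h
    apply memPplusM_of_summable hp.le _ (fun m hm => lac_of_neg a hm)
    have h1 : ∑' m : ℤ, ‖lac n a m‖ₑ ^ (1 : ℝ) ≠ ⊤ := by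
      rw [lac_tsum hH.strictMono a one_pos, tsum_ne_top_iff a zero_le_one]
      simpa using h
    simpa using h1

/-! ### The theorem -/

theorem hadamard_two : Hadamard 2 (fun k => 2 ^ k) := by
  refine ⟨by norm_num, by norm_num, fun k => ?_⟩
  push_cast
  rw [pow_succ, mul_comm]

/-- the coefficients `1 / (k + 1)` -/
noncomputable def harm (k : ℕ) : ℂ := ((1 / ((k : ℝ) + 1) : ℝ) : ℂ)

theorem harm_norm (k : ℕ) : ‖harm k‖ = 1 / ((k : ℝ) + 1) := by
  unfold harm
  rw [Complex.norm_real, Real.norm_of_nonneg (by positivity)]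

theorem harm_le (k : ℕ) : ‖harm k‖ ≤ 1 := by
  rw [harm_norm, div_le_one (by positivity)]
  have : (0 : ℝ) ≤ k := Nat.cast_nonneg k
  linarith

theorem lac_analytic {r : ℝ} {n : ℕ → ℕ} (hH : Hadamard r n) {a : ℕ → ℂ}
    (ha : ∀ k, ‖a k‖ ≤ 1) : IsAnalyticDistribution (lac n a) := by
  refine ⟨fun m hm => lac_of_neg a hm, 1, 0, fun m => ?_⟩
  rw [pow_zero, mul_one]
  by_cases h : ∃ k : ℕ, m = n k
  · obtain ⟨k, rfl⟩ := h
    rw [lac_apply hH.strictMono]
    exact ha k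
  · push Not at h
    rw [lac_zero a h]
    simp

theorem harm_summable {s : ℝ} (hs : 1 < s) : Summable fun k => ‖harm k‖ ^ s := by
  have h1 : Summable fun k : ℕ => ((k : ℝ) ^ s)⁻¹ := Real.summable_nat_rpow_inv.mpr hs
  have h2 := (summable_nat_add_iff 1).mpr h1
  refine h2.congr fun k => ?_
  rw [harm_norm, one_div, Real.inv_rpow (by positivity)]
  push_cast
  rfl

theorem harm_not_summable : ¬ Summable fun k => ‖harm k‖ := by
  intro h
  apply Real.not_summable_one_div_natCast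
  rw [← summable_nat_add_iff 1]
  refine h.congr fun k => ?_
  rw [harm_norm]
  push_cast
  rfl

theorem summable_iff (f : ℤ → ℂ) : ∑' n : ℤ, ‖f n‖ₑ ≠ ⊤ ↔ Summable fun n => ‖f n‖ := by
  have h1 : ∀ n, ‖f n‖ₑ = ((‖f n‖₊ : ℝ≥0) : ℝ≥0∞) := fun n => enorm_eq_nnnorm _
  simp_rw [h1]
  rw [ENNReal.tsum_coe_ne_top_iff_summable, ← NNReal.summable_coe]
  simp

/-- **Main theorem.** -/
theorem result :
    (∀ f : ℤ → ℂ, IsAnalyticDistribution f → ∀ p : ℝ≥0∞, p = 1 ∨ p = ⊤ →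
      (HankelActs p f ↔ Summable fun n => ‖f n‖) ∧
        (MemPplusM p f ↔ Summable fun n => ‖f n‖)) ∧
    (∀ p : ℝ≥0∞, 1 < p → p < ⊤ → p ≠ 2 → ∀ r : ℝ, 1 < r → ∃ K : ℝ≥0,
      ∀ n : ℕ → ℕ, Hadamard r n → ∀ (m : UnitAddCircle → ℂ) (C : ℝ≥0),
        Integrable m AddCircle.haarAddCircle → MultiplierBound p m C →
          ∑' k : ℕ, ‖fourierCoeff m (n k)‖ₑ ≤ K * C) ∧
    (∀ (r : ℝ) (n : ℕ → ℕ), Hadamard r n → ∀ (a : ℕ → ℂ) (p : ℝ≥0∞), 1 < p → p < ⊤ →
      (HankelActs p (lac n a) ↔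
        Summable fun k => ‖a k‖ ^ min p.toReal (p.toReal / (p.toReal - 1))) ∧
      (p ≠ 2 → (MemPplusM p (lac n a) ↔ Summable fun k => ‖a k‖))) ∧
    ∃ f : ℤ → ℂ, IsAnalyticDistribution f ∧
      ∀ p : ℝ≥0∞, 1 < p → p < ⊤ → HankelActs p f ∧ (p ≠ 2 → ¬ MemPplusM p f) := by
  have hconj : ∀ p : ℝ≥0∞, 1 < p → p < ⊤ →
      p.toReal.HolderConjugate (p.toReal / (p.toReal - 1)) := by
    intro p hp hpt
    have hs1 : 1 < p.toReal := by
      have := (ENNReal.toReal_lt_toReal ENNReal.one_ne_top hpt.ne).mpr hp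
      simpa using this
    exact Real.HolderConjugate.conjExponent hs1
  refine ⟨fun f hf p hp => ?_, fun p hp hpt hp2 r hr => paley hp hpt hp2 hr,
    fun r n hH a p hp hpt => ⟨lac_hankelActs_iff hH a hp hpt.ne (hconj p hp hpt),
      fun hp2 => lac_memPplusM_iff hH a hp hpt hp2⟩, ?_⟩
  · rw [← summable_iff]
    exact hankel_endpoint f hf.1 hp
  · refine ⟨lac (fun k => 2 ^ k) harm, lac_analytic hadamard_two harm_le, fun p hp hpt =>
      ⟨?_, fun hp2 h => ?_⟩⟩
    · have hpq := hconj p hp hpt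
      rw [lac_hankelActs_iff hadamard_two harm hp hpt.ne hpq]
      exact harm_summable (lt_min hpq.lt hpq.symm.lt)
    · exact harm_not_summable ((lac_memPplusM_iff hadamard_two harm hp hpt hp2).mp h)

end Pool.Agent.Results.MP_03b314_an.LacunaryClassification
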